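import Pool.Agent.helper82.SW.SpecW

/-! # Project sp, module CR: the crossing of the model is the crossing of the bricks -/

namespace Pool.Agent.helper82.SW

open MeasureTheory Filter Topology TopologicalSpace

theorem CR_cfg (n : ℕ) (b : ℤ × ℤ → Bool) (x : SpectralPivotal.sites n) :
    cfg n b x = -1 ↔ b (sh x) = false := by
  unfold cfg
  by_cases h : b (sh x) = true
  · rw [if_pos h, h]
    constructor
    · intro h1
      exact absurd h1 (by decide)
    · intro h1
      exact absurd h1 (by decide)
  · rw [if_neg h]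
    simp only [Bool.not_eq_true] at h
    simp [h]

theorem CR_white (hAD : AD_stmt) (n : ℕ) (b : ℤ × ℤ → Bool) :
    white n (cfg n b) = (SC.Usq n).filter fun v => b (sh v) = false := by
  ext v
  unfold white
  simp only [Finset.mem_image, Finset.mem_filter, Finset.mem_univ, true_and]
  constructor
  · rintro ⟨x, hx, rfl⟩
    exact ⟨(hAD.2.1 n x).mp x.2, (CR_cfg n b x).mp hx⟩
  · rintro ⟨hv, hb⟩
    refine ⟨⟨v, (hAD.2.1 n v).mpr hv⟩, ?_, rfl⟩
    exact (CR_cfg n b _).mpr hb

theorem CR (hAD : AD_stmt) (hMC : MC_stmt) (hBR : BR_stmt) : CR_stmt := by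
  intro i b
  rw [hMC, hBR, CR_white hAD]

end Pool.Agent.helper82.SW
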